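import Mathlib

namespace Pool.Agent.Results.MP_1bac39_an.Real3

open Real Filter Topology Function Polynomial
open scoped ContDiff

/-- `u l j` (`j = 0, 1, 2`) are the fundamental solutions of `y''' + p1 y' + p0 y = l y`. -/
def Fund (p0 p1 : ℝ → ℝ) (u : ℂ → Fin 3 → ℝ → ℂ) : Prop :=
  ∀ l j, ContDiff ℝ 3 (u l j) ∧
    (∀ k : Fin 3, iteratedDeriv k (u l j) 0 = if j = k then 1 else 0) ∧
    ∀ x, iteratedDeriv 3 (u l j) x + p1 x * deriv (u l j) x + p0 x * u l j x = l * u l j x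

/-- The Floquet matrix: entry `(k, j)` is the `k`-th derivative of `u l j` at `b`. -/
noncomputable def Floq (u : ℂ → Fin 3 → ℝ → ℂ) (b : ℝ) (l : ℂ) : Matrix (Fin 3) (Fin 3) ℂ :=
  Matrix.of fun k j => iteratedDeriv k (u l j) b

noncomputable section

def sg (t : ℝ) : ℝ := 12 - 3 * sin t + 6 * sin t * cos t - 4 * sin t ^ 3
def W (t : ℝ) : ℝ := 9 + 6 * cos t

lemma sg0 (t) : 0 < sg t := by
  have := sin_three_mul t
  have := sin_two_mul t
  unfold sg
  linarith [neg_one_le_sin (3 * t), neg_one_le_sin (2 * t), sin_le_one t]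

lemma W0 (t) : 0 < W t := by unfold W; linarith [neg_one_le_cos t]

/-- smooth and periodic -/
def SP (f : ℝ → ℝ) : Prop := ContDiff ℝ ∞ f ∧ Periodic f (2 * π)

lemma SP.d {f} (h : SP f) : SP (deriv f) := ⟨(contDiff_infty_iff_deriv.1 h.1).2, fun x => by
  rw [← deriv_comp_add_const, show (fun x => f (x + 2 * π)) = f from funext h.2]⟩

lemma SP.has {f} (h : SP f) (t) : HasDerivAt f (deriv f t) t :=
  ((contDiff_infty_iff_deriv.1 h.1).1 t).hasDerivAt

lemma SP.add {f g} (h : SP f) (k : SP g) : SP fun t => f t + g t := ⟨h.1.add k.1, h.2.add k.2⟩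
lemma SP.mul {f g} (h : SP f) (k : SP g) : SP fun t => f t * g t := ⟨h.1.mul k.1, h.2.mul k.2⟩
lemma SP.neg {f} (h : SP f) : SP fun t => -f t := ⟨h.1.neg, fun x => by simp [h.2 x]⟩
lemma SP.div {f g} (h : SP f) (k : SP g) (n : ∀ t, 0 < g t) : SP fun t => f t / g t :=
  ⟨h.1.div k.1 fun t => (n t).ne', h.2.div k.2⟩
lemma SP.rt {f} (h : SP f) (n : ∀ t, 0 < f t) : SP fun t => f t ^ (3⁻¹ : ℝ) :=
  ⟨h.1.rpow_const_of_ne fun t => (n t).ne', fun x => by simp [h.2 x]⟩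

lemma spW : SP W := ⟨by unfold W; fun_prop, fun x => by simp [W]⟩
lemma sps : SP sg := ⟨by unfold sg; fun_prop, fun x => by simp [sg]⟩

def be (t : ℝ) : ℝ := -(33 + 12 * cos t) / W t
def de (t : ℝ) : ℝ := -(6 * sin t) / W t

lemma geo : ∃ ξ ρ a b c d e P0 P1 : ℝ → ℝ, SP ξ ∧ SP ρ ∧ SP a ∧ SP b ∧ SP c ∧ SP d ∧ SP e ∧
    SP P0 ∧ SP P1 ∧ (∀ t, 0 < ξ t) ∧ (∀ t, ρ t * b t * e t * W t = 1) ∧
    (∀ t, e t * W t * sg t = ξ t * ρ t) ∧
    ∀ (G0 G1 G2 : ℝ → ℂ) (φ : ℂ) (t : ℝ), HasDerivAt G0 (G1 t) t → HasDerivAt G1 (G2 t) t →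
      HasDerivAt G2 (be t * G1 t + de t * G2 t + φ) t →
      HasDerivAt (fun t => ρ t * G0 t) (ξ t * (a t * G0 t + b t * G1 t)) t ∧
      HasDerivAt (fun t => a t * G0 t + b t * G1 t) (ξ t * (c t * G0 t + d t * G1 t + e t * G2 t)) t ∧
      HasDerivAt (fun t => c t * G0 t + d t * G1 t + e t * G2 t)
        (e t * φ - ξ t * (P1 t * (a t * G0 t + b t * G1 t) + P0 t * (ρ t * G0 t))) t := by
  obtain ⟨ρ, hρ, ρ0, ρ3⟩ : ∃ ρ, SP ρ ∧ (∀ t, 0 < ρ t) ∧ ∀ t, ρ t ^ 3 = sg t :=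
    ⟨_, sps.rt sg0, fun t => rpow_pos_of_pos (sg0 t) _, fun t => rpow_inv_natCast_pow (sg0 t).le three_ne_zero⟩
  have p (t) := mul_pos (sg0 t) (W0 t)
  obtain ⟨ξ, hξ, ξ0, ξ3⟩ : ∃ ξ, SP ξ ∧ (∀ t, 0 < ξ t) ∧ ∀ t, ξ t ^ 3 = sg t * W t :=
    ⟨_, (sps.mul spW).rt p, fun t => rpow_pos_of_pos (p t) _, fun t => rpow_inv_natCast_pow (p t).le three_ne_zero⟩
  have ha := hρ.d.div hξ ξ0
  have hb := hρ.div hξ ξ0
  have b0 (t) := div_pos (ρ0 t) (ξ0 t)
  set a := fun t => deriv ρ t / ξ t with ea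
  set b := fun t => ρ t / ξ t with eb
  have hc := ha.d.div hξ ξ0
  have hd := (ha.add hb.d).div hξ ξ0
  have he := hb.div hξ ξ0
  set c := fun t => deriv a t / ξ t with ec
  set d := fun t => (a t + deriv b t) / ξ t with ed
  set e := fun t => b t / ξ t with ee
  have hbe : SP be := SP.div ⟨by fun_prop, fun x => by simp⟩ spW W0
  have h1 := ((hc.add hd.d).add (he.mul hbe)).neg.div (hξ.mul hb) fun t => mul_pos (ξ0 t) (b0 t)
  set P1 := fun t => -(c t + deriv d t + e t * be t) / (ξ t * b t) with e1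
  have h0 := (hc.d.add ((hξ.mul h1).mul ha)).neg.div (hξ.mul hρ) fun t => mul_pos (ξ0 t) (ρ0 t)
  set P0 := fun t => -(deriv c t + ξ t * P1 t * a t) / (ξ t * ρ t) with e0
  have k1 (t) : ρ t * b t * e t * W t = 1 := by
    have := ξ0 t
    simp only [ee, eb]; field_simp; rw [ρ3, ξ3]
  have k2 (t) : d t + deriv e t + e t * de t = 0 := by
    have w : HasDerivAt W (-(6 * sin t)) t :=
      (((hasDerivAt_cos t).const_mul 6).const_add 9).congr_deriv (by ring)
    have H := ((((hρ.has t).fun_mul (hb.has t)).fun_mul (he.has t)).fun_mul w).unique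
      (by simp only [k1]; exact hasDerivAt_const t 1)
    have := ξ0 t; have := ρ0 t; have := W0 t
    rw [show e t = ρ t / ξ t / ξ t from rfl, show b t = ρ t / ξ t from rfl] at H
    rw [show d t = (deriv ρ t / ξ t + deriv b t) / ξ t from rfl, show e t = ρ t / ξ t / ξ t from rfl, de]
    refine (mul_eq_zero_iff_left (show ρ t * (ρ t / ξ t) * W t ≠ 0 by positivity)).1 (Eq.trans ?_ H)
    field_simp
  refine ⟨ξ, ρ, a, b, c, d, e, P0, P1, hξ, hρ, ha, hb, hc, hd, he, h0, h1, ξ0, k1, fun t => ?_,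
    fun G0 G1 G2 φ t g0 g1 g2 => ?_⟩
  · have := ξ0 t
    simp only [ee, eb]; field_simp; rw [ξ3]; ring
  have x0 : (ξ t : ℂ) ≠ 0 := by exact_mod_cast (ξ0 t).ne'
  have r0 : (ρ t : ℂ) ≠ 0 := by exact_mod_cast (ρ0 t).ne'
  have k := congrArg (fun x : ℝ => (x : ℂ)) (k2 t)
  refine ⟨(((hρ.has t).ofReal_comp).fun_mul g0).congr_deriv ?_,
    ((((ha.has t).ofReal_comp).fun_mul g0).fun_add (((hb.has t).ofReal_comp).fun_mul g1)).congr_deriv ?_,
    (((((hc.has t).ofReal_comp).fun_mul g0).fun_add (((hd.has t).ofReal_comp).fun_mul g1)).fun_add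
      (((he.has t).ofReal_comp).fun_mul g2)).congr_deriv ?_⟩
  · simp only [ea, eb]; push_cast; field_simp
  · simp only [ec, ed, ee]; push_cast; field_simp; ring
  · have q1 : (ξ t * b t * P1 t : ℂ) = -(c t + deriv d t + e t * be t) := by
      exact_mod_cast mul_div_cancel₀ _ (mul_pos (ξ0 t) (b0 t)).ne'
    have q0 : (ξ t * ρ t * P0 t : ℂ) = -(deriv c t + ξ t * P1 t * a t) := by
      exact_mod_cast mul_div_cancel₀ _ (mul_pos (ξ0 t) (ρ0 t)).ne'
    push_cast at k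
    linear_combination G2 t * k + G1 t * q1 + G0 t * q0

def g0 (t : ℝ) : Fin 3 → ℝ := ![cos t + 2 * cos t ^ 2 - 1, sin t + 2 * sin t * cos t, 1]
def g1 (t : ℝ) : Fin 3 → ℝ := ![-sin t - 4 * sin t * cos t, cos t + 4 * cos t ^ 2 - 2, 0]
def g2 (t : ℝ) : Fin 3 → ℝ := ![-cos t - 8 * cos t ^ 2 + 4, -sin t - 8 * sin t * cos t, 0]
def V (t : ℝ) : Fin 3 → ℝ := ![2 - cos t - 4 * cos t ^ 2, -sin t - 4 * sin t * cos t, 3 + 3 * cos t]

lemma dg (t : ℝ) (i : Fin 3) : HasDerivAt (g0 · i) (g1 t i) t ∧ HasDerivAt (g1 · i) (g2 t i) t ∧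
    HasDerivAt (g2 · i) (be t * g1 t i + de t * g2 t i) t := by
  have s := hasDerivAt_sin t
  have c := hasDerivAt_cos t
  have h := sin_sq_add_cos_sq t
  have w := (W0 t).ne'
  fin_cases i
  · refine ⟨((c.fun_add ((c.fun_pow 2).const_mul 2)).sub_const 1).congr_deriv (by simp [g1]; ring),
      (s.fun_neg.fun_sub ((s.const_mul 4).fun_mul c)).congr_deriv ?_,
      ((c.fun_neg.fun_sub ((c.fun_pow 2).const_mul 8)).add_const 4).congr_deriv ?_⟩
    · simp [g2]; linear_combination 4 * h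
    · simp [g1, g2, be, de]; field_simp; unfold W; ring
  · refine ⟨(s.fun_add ((s.const_mul 2).fun_mul c)).congr_deriv ?_,
      ((c.fun_add ((c.fun_pow 2).const_mul 4)).sub_const 2).congr_deriv (by simp [g2]; ring),
      (s.fun_neg.fun_sub ((s.const_mul 8).fun_mul c)).congr_deriv ?_⟩
    · simp [g1]; linear_combination -2 * h
    · simp [g1, g2, be, de]; field_simp; unfold W; linear_combination 66 * h
  · exact ⟨hasDerivAt_const t _, hasDerivAt_const t _, (hasDerivAt_const t _).congr_deriv (by simp [g1, g2])⟩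

lemma ort (t : ℝ) : ∑ i, g0 t i * V t i = 0 ∧ ∑ i, g1 t i * V t i = 0 ∧ ∑ i, g2 t i * V t i = W t := by
  have h := sin_sq_add_cos_sq t
  simp only [Fin.sum_univ_three, g0, g1, g2, V, W]
  refine ⟨?_, ?_, ?_⟩ <;> simp
  · linear_combination (-1 - 6 * cos t - 8 * cos t ^ 2) * h
  · ring
  · linear_combination (1 + 12 * cos t + 32 * cos t ^ 2) * h

def q (y : ℝ → Fin 3 → ℝ) (t : ℝ) : ℝ := sg t * ∑ j, g0 t j * y t j

def J (y : ℝ → Fin 3 → ℝ) (t : ℝ) (i : Fin 3) : ℝ := ∫ s in 0..t, q y s * V s i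

lemma cq {y : ℝ → Fin 3 → ℝ} (h : ∀ j, Continuous (y · j)) : Continuous (q y) :=
  sps.1.continuous.mul (continuous_finsetSum _ fun j _ =>
    (continuous_iff_continuousAt.2 fun t => (dg t j).1.continuousAt).mul (h j))

lemma dJ {y : ℝ → Fin 3 → ℝ} (h : ∀ j, Continuous (y · j)) (t i) :
    HasDerivAt (J y · i) (q y t * V t i) t :=
  (((cq h).mul (show Continuous (V · i) by
    fin_cases i <;> simp [V] <;> fun_prop)).integral_hasStrictDerivAt 0 t).hasDerivAt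

lemma cJ {y : ℝ → Fin 3 → ℝ} (h : ∀ j, Continuous (y · j)) (i) : Continuous (J y · i) :=
  continuous_iff_continuousAt.2 fun t => (dJ h t i).continuousAt

def ip (g : Fin 3 → ℝ) (z : Fin 3 → ℂ) : ℂ := ∑ i, g i * z i

lemma dip {g g' : ℝ → Fin 3 → ℝ} {z : ℝ → Fin 3 → ℂ} {φ : ℂ} {t : ℝ} (hg : ∀ i, HasDerivAt (g · i) (g' t i) t)
    (hz : ∀ i, HasDerivAt (z · i) (φ * V t i) t) :
    HasDerivAt (fun t => ip (g t) (z t)) (ip (g' t) (z t) + φ * (∑ i, g t i * V t i : ℝ)) t :=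
  (HasDerivAt.fun_sum fun i _ => (hg i).ofReal_comp.fun_mul (hz i)).congr_deriv
    (by simp only [ip, Fin.sum_univ_three]; push_cast; ring)

def ze (y : Fin 3 → ℝ) (μ : ℂ) (t : ℝ) (i : Fin 3) : ℂ :=
  y i + μ * J (fun _ => y) t i + μ ^ 2 * J (J fun _ => y) t i

lemma main : ∃ (b : ℝ) (p0 p1 : ℝ → ℝ) (S : Matrix (Fin 3) (Fin 3) ℂ), 0 < b ∧ Continuous p0 ∧
    Continuous p1 ∧ Periodic p0 b ∧ Periodic p1 b ∧ S.det = 1 ∧ ∀ u, Fund p0 p1 u → ∀ y : Fin 3 → ℝ,
    ∃ K : ℝ, ∀ μ : ℂ, ‖μ‖ ≤ 1 → ‖(Floq u b μ).mulVec (S.mulVec fun i => y i) -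
      S.mulVec (ze y μ (2 * π))‖ ≤ K * ‖μ‖ ^ 3 := by
  obtain ⟨ξ, ρ, a, b, c, d, e, P0, P1, hξ, hρ, ha, hb, hc, hd, he, h0, h1, ξ0, k1, k2, H⟩ := geo
  have cξ := hξ.1.continuous
  let X (t : ℝ) : ℝ := ∫ s in 0..t, ξ s
  have dX (t) : HasDerivAt X (ξ t) t := (cξ.integral_hasStrictDerivAt 0 t).hasDerivAt
  have mX : StrictMono X := strictMono_of_hasDerivAt_pos dX ξ0
  have X0 : X 0 = 0 := intervalIntegral.integral_same
  have sX : Surjective X := (continuous_iff_continuousAt.2 fun t => (dX t).continuousAt).surjective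
    (hξ.2.tendsto_atTop_intervalIntegral_of_pos' (cξ.intervalIntegrable _ _) ξ0 two_pi_pos)
    (hξ.2.tendsto_atBot_intervalIntegral_of_pos' (cξ.intervalIntegrable _ _) ξ0 two_pi_pos)
  let τ := (mX.orderIsoOfSurjective X sX).symm
  have τX (t) : τ (X t) = t := mX.orderIsoOfSurjective_symm_apply_self X sX t
  have per (P : ℝ → ℝ) (hP : SP P) : Periodic (fun x => P (τ x)) (X (2 * π)) := fun x => by
    obtain ⟨t, rfl⟩ := sX x
    have := hξ.2.intervalIntegral_add_eq_add 0 t fun _ _ => cξ.intervalIntegrable _ _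
    rw [zero_add] at this
    simp only [show X t + X (2 * π) = X (t + 2 * π) from this.symm, τX, hP.2 t]
  let S : Matrix (Fin 3) (Fin 3) ℂ := Matrix.of ![fun i => ρ 0 * g0 0 i,
    fun i => a 0 * g0 0 i + b 0 * g1 0 i, fun i => c 0 * g0 0 i + d 0 * g1 0 i + e 0 * g2 0 i]
  have hS (z : Fin 3 → ℂ) : S.mulVec z = ![ρ 0 * ip (g0 0) z, a 0 * ip (g0 0) z + b 0 * ip (g1 0) z,
      c 0 * ip (g0 0) z + d 0 * ip (g1 0) z + e 0 * ip (g2 0) z] := by
    ext k; fin_cases k <;> simp [S, Matrix.mulVec, dotProduct, ip, Fin.sum_univ_three] <;> ring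
  refine ⟨X (2 * π), fun x => P0 (τ x), fun x => P1 (τ x), S, X0 ▸ mX two_pi_pos,
    h0.1.continuous.comp τ.continuous, h1.1.continuous.comp τ.continuous, per _ h0, per _ h1, ?_,
    fun u hu y => ?_⟩
  · have := congrArg (fun x : ℝ => (x : ℂ)) (k1 0)
    simp [S, Matrix.det_fin_three, g0, g1, g2, W] at this ⊢
    linear_combination this
  have c1 := cJ (y := fun _ => y) fun _ => continuous_const
  have c2 := cJ c1
  let h (t : ℝ) : ℝ := ξ t * ρ t * ∑ j, g0 t j * J (J fun _ => y) t j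
  have cg (j) : Continuous (g0 · j) := continuous_iff_continuousAt.2 fun t => (dg t j).1.continuousAt
  obtain ⟨K, hK⟩ := isCompact_Icc.exists_bound_of_continuousOn (s := Set.Icc 0 (2 * π))
    (f := fun t => (ξ t, ξ t * P0 t, ξ t * P1 t, h t)) (Continuous.continuousOn (by
      have := h0.1.continuous; have := h1.1.continuous; have := hρ.1.continuous
      fun_prop))
  have K0 : 0 < K := (ξ0 0).trans_le ((le_abs_self _).trans ((norm_fst_le (ξ 0, _)).trans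
    (hK 0 ⟨le_rfl, two_pi_pos.le⟩)))
  refine ⟨(exp (3 * K * (2 * π)) - 1) / 3, fun μ hμ => ?_⟩
  let s := S.mulVec fun i => y i
  let Y (k : ℕ) (x : ℝ) : ℂ := ∑ j, iteratedDeriv k (u μ j) x * s j
  have dY (k : ℕ) (hk : k < 3) (t) : HasDerivAt (fun t => Y k (X t)) (ξ t * Y (k + 1) (X t)) t := by
    have : HasDerivAt (Y k) (Y (k + 1) (X t)) (X t) := HasDerivAt.fun_sum fun j _ => by
      rw [iteratedDeriv_succ]
      exact ((hu μ j).1.differentiable_iteratedDeriv k (by exact_mod_cast hk) _).hasDerivAt.mul_const _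
    exact this.scomp t (dX t)
  have Y3 (t) : Y 3 (X t) = μ * Y 0 (X t) - P1 t * Y 1 (X t) - P0 t * Y 0 (X t) := by
    have := fun j => (hu μ j).2.2 (X t)
    simp only [τX] at this
    simp only [Y, Fin.sum_univ_three, iteratedDeriv_zero, iteratedDeriv_one]
    linear_combination s 0 * this 0 + s 1 * this 1 + s 2 * this 2
  let G0 t := ip (g0 t) (ze y μ t)
  let G1 t := ip (g1 t) (ze y μ t)
  let G2 t := ip (g2 t) (ze y μ t)
  let f (t : ℝ) : Fin 3 → ℂ := ![Y 0 (X t) - ρ t * G0 t, Y 1 (X t) - (a t * G0 t + b t * G1 t),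
    Y 2 (X t) - (c t * G0 t + d t * G1 t + e t * G2 t)]
  let f' (t : ℝ) : Fin 3 → ℂ := ![ξ t * f t 1, ξ t * f t 2,
    μ * (ξ t * f t 0) - (ξ t * P1 t : ℝ) * f t 1 - (ξ t * P0 t : ℝ) * f t 0 + μ ^ 3 * h t]
  have df (t) : HasDerivAt f (f' t) t := by
    have dz (i) : HasDerivAt (ze y μ · i) ((μ * q (fun _ => y) t + μ ^ 2 * q (J fun _ => y) t) * V t i) t :=
      ((((dJ (y := fun _ => y) (fun _ => continuous_const) t i).ofReal_comp.const_mul μ).const_add
        (y i : ℂ)).fun_add ((dJ c1 t i).ofReal_comp.const_mul (μ ^ 2))).congr_deriv (by push_cast; ring)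
    obtain ⟨o0, o1, o2⟩ := ort t
    obtain ⟨w0, w1, w2⟩ := H G0 G1 G2 ((μ * q (fun _ => y) t + μ ^ 2 * q (J fun _ => y) t) * W t) t
      (by simpa [o0] using dip (fun i => (dg t i).1) dz) (by simpa [o1] using dip (fun i => (dg t i).2.1) dz)
      ((dip (g' := fun t i => be t * g1 t i + de t * g2 t i) (fun i => (dg t i).2.2) dz).congr_deriv (by
        rw [o2]; simp only [G1, G2, ip, Fin.sum_univ_three]; push_cast; ring))
    refine hasDerivAt_pi.2 fun i => ?_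
    fin_cases i
    · exact ((dY 0 (by norm_num) t).fun_sub w0).congr_deriv (by simp [f', f]; ring)
    · exact ((dY 1 (by norm_num) t).fun_sub w1).congr_deriv (by simp [f', f]; ring)
    · refine ((dY 2 (by norm_num) t).fun_sub w2).congr_deriv ?_
      have := congrArg (fun x : ℝ => (x : ℂ)) (k2 t)
      simp [f', f, Y3, h, q, G0, ip, ze, Fin.sum_univ_three] at this ⊢
      linear_combination -(μ * (g0 t 0 * y 0 + g0 t 1 * y 1 + g0 t 2 * y 2) + μ ^ 2 * (g0 t 0 *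
        J (fun _ => y) t 0 + g0 t 1 * J (fun _ => y) t 1 + g0 t 2 * J (fun _ => y) t 2)) * this
  have f0 : f 0 = 0 := by
    have (k : Fin 3) : Y k 0 = s k := by simp [Y, (hu μ _).2.1]
    have z : ze y μ 0 = fun i => (y i : ℂ) := by ext; simp [ze, J]
    have a0 := this 0; have a1 := this 1; have a2 := this 2
    simp only [s, hS] at a0 a1 a2
    ext k; fin_cases k <;> simp [f, X0, G0, G1, G2, z, sub_eq_zero]
    exacts [a0, a1, a2]
  have G := norm_le_gronwallBound_of_norm_deriv_right_le (f := f) (f' := f') (a := 0) (b := 2 * π)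
    (δ := 0) (K := 3 * K) (ε := K * ‖μ‖ ^ 3) (fun t _ => (df t).continuousAt.continuousWithinAt)
    (fun t _ => (df t).hasDerivWithinAt) (by simp [f0]) (fun t ht => by
      have := hK t (Set.Ico_subset_Icc_self ht)
      simp only [Prod.norm_def, max_le_iff] at this
      obtain ⟨n1, n2, n3, n4⟩ := this
      have m (x : ℝ) (hx : ‖x‖ ≤ K) (i) : ‖(x : ℂ) * f t i‖ ≤ K * ‖f t‖ := by
        rw [norm_mul, Complex.norm_real]; gcongr; exact norm_le_pi_norm _ _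
      have z : 0 ≤ K * ‖f t‖ := by positivity
      have z' : 0 ≤ K * ‖μ‖ ^ 3 := by positivity
      refine (pi_norm_le_iff_of_nonneg (by positivity)).2 fun i => ?_
      fin_cases i
      · exact (m _ n1 1).trans (by linarith)
      · exact (m _ n1 2).trans (by linarith)
      · refine (norm_add_le_of_le (norm_sub_le_of_le (norm_sub_le_of_le (show _ ≤ K * ‖f t‖ from ?_)
          (m _ n3 1)) (m _ n2 0)) (show _ ≤ K * ‖μ‖ ^ 3 from ?_)).trans (by linarith)
        · rw [norm_mul]; exact (mul_le_of_le_one_left (norm_nonneg _) hμ).trans (m _ n1 0)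
        · rw [norm_mul, norm_pow, Complex.norm_real, mul_comm]; gcongr) (2 * π) ⟨two_pi_pos.le, le_rfl⟩
  rw [gronwallBound_of_K_ne_0 (by positivity)] at G
  refine (congrArg _ ?_).trans_le (G.trans_eq ?_)
  · have z (F : ℝ → ℝ) (hF : SP F) : F (2 * π) = F 0 := by simpa using hF.2 0
    rw [hS (ze y μ (2 * π))]
    ext k; fin_cases k <;> simp [-Matrix.mulVec_mulVec, f, Y, s, Floq, Matrix.mulVec, dotProduct, G0, G1, G2, z _ hρ, z _ ha,
      z _ hb, z _ hc, z _ hd, z _ he, g0, g1, g2]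
  · simp only [sub_zero]; field_simp; ring

def H : List ℝ → ℝ → ℝ
  | [], _ => 0
  | a :: l, x => a + x * H l x

def H' : List ℝ → ℝ → ℝ
  | [], _ => 0
  | _ :: l, x => H l x + x * H' l x

lemma dH (l : List ℝ) (x : ℝ) : HasDerivAt (H l) (H' l x) x := by
  induction l with
  | nil => exact hasDerivAt_const x _
  | cons a l ih => exact (((hasDerivAt_id' x).fun_mul ih).const_add a).congr_deriv (by simp [H'])

def F (k : ℝ) (A B C D : List ℝ) (t : ℝ) : ℝ :=
  k * t + (H A (cos t) + sin t * H B (cos t)) + t * (H C (cos t) + sin t * H D (cos t))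

def F' (k : ℝ) (A B C D : List ℝ) (t : ℝ) : ℝ :=
  k + (-sin t * H' A (cos t) + cos t * H B (cos t) - (1 - cos t ^ 2) * H' B (cos t)) +
  (H C (cos t) + sin t * H D (cos t) +
    t * (-sin t * H' C (cos t) + cos t * H D (cos t) - (1 - cos t ^ 2) * H' D (cos t)))

lemma ev {y : ℝ → Fin 3 → ℝ} {i k A B C D} (h : ∀ t, F' k A B C D t = q y t * V t i)
    (h0 : F k A B C D 0 = 0) (t : ℝ) : J y t i = F k A B C D t := by
  have d (A B : List ℝ) (t : ℝ) : HasDerivAt (fun t => H A (cos t) + sin t * H B (cos t))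
      (-sin t * H' A (cos t) + cos t * H B (cos t) - (1 - cos t ^ 2) * H' B (cos t)) t :=
    (((dH A _).comp t (hasDerivAt_cos t)).fun_add ((hasDerivAt_sin t).fun_mul
      ((dH B _).comp t (hasDerivAt_cos t)))).congr_deriv (by rw [← sin_sq]; simp; ring)
  have c (l : List ℝ) : Continuous (H l) ∧ Continuous (H' l) := by
    induction l with
    | nil => exact ⟨continuous_const, continuous_const⟩
    | cons a l ih => obtain ⟨_, _⟩ := ih; constructor <;> (simp only [H, H']; fun_prop)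
  rw [J, ← funext h, intervalIntegral.integral_eq_sub_of_hasDerivAt (f := F k A B C D) (fun t _ =>
    ((((hasDerivAt_id' t).const_mul k).fun_add (d A B t)).fun_add
      ((hasDerivAt_id' t).fun_mul (d C D t))).congr_deriv (by simp [F'])), h0, sub_zero]
  have := (c A).2; have := (c B).1; have := (c B).2; have := (c C).1; have := (c C).2
  have := (c D).1; have := (c D).2
  exact Continuous.intervalIntegrable (by unfold F'; fun_prop) _ _

lemma ja0 (t : ℝ) : J (fun _ => ![3, 0, -1]) t 0 =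
    F (-54) [65/7, -56, 59, 49, -79, -32, 36, 96/7]
      [-24, 42, -72, -72] [] [] t :=
  ev (fun t => by
    simp [F', H, H', q, sg, g0, V, Fin.sum_univ_three]
    linear_combination ((-32) * sin t ^ 1 + (40) * sin t ^ 1 * cos t ^ 1 + (100) * sin t ^ 1 * cos t ^ 2 +
      (-72) * sin t ^ 1 * cos t ^ 3 + (-96) * sin t ^ 1 * cos t ^ 4) * sin_sq_add_cos_sq t) (by norm_num [F,
      H]) t

lemma ja1 (t : ℝ) : J (fun _ => ![3, 0, -1]) t 1 =
    F (0) [-18, -48, -78, 72, 72]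
      [-103/7, 28, 183/7, -64, -176/7, 36, 96/7] [] [] t :=
  ev (fun t => by
    simp [F', H, H', q, sg, g0, V, Fin.sum_univ_three]
    linear_combination ((28) + (67) * cos t ^ 1 + (-220) * cos t ^ 2 + (-112) * cos t ^ 3 + (216) * cos t ^
      4 + (96) * cos t ^ 5 + (16) * sin t ^ 2 + (52) * sin t ^ 2 * cos t ^ 1 + (-72) * sin t ^ 2 * cos t ^ 2
      + (-96) * sin t ^ 2 * cos t ^ 3) * sin_sq_add_cos_sq t) (by norm_num [F, H]) t

lemma ja2 (t : ℝ) : J (fun _ => ![3, 0, -1]) t 2 =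
    F (18) [347/10, -84, 51/2, 85, -6, -216/5, -12]
      [108, 162, 72] [] [] t :=
  ev (fun t => by
    simp [F', H, H', q, sg, g0, V, Fin.sum_univ_three]
    linear_combination ((-48) * sin t ^ 1 + (-12) * sin t ^ 1 * cos t ^ 1 + (108) * sin t ^ 1 * cos t ^ 2 +
      (72) * sin t ^ 1 * cos t ^ 3) * sin_sq_add_cos_sq t) (by norm_num [F, H]) t

lemma jb0 (t : ℝ) : J (fun _ => ![0, 1, 0]) t 0 =
    F (-3) [-6, -24, -18, 24, 24]
      [-41/35, 11, 137/35, -20, -256/35, 12, 32/7] [] [] t :=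
  ev (fun t => by
    simp [F', H, H', q, sg, g0, V, Fin.sum_univ_three]
    linear_combination ((14) + (9) * cos t ^ 1 + (-68) * cos t ^ 2 + (-32) * cos t ^ 3 + (72) * cos t ^ 4 +
      (32) * cos t ^ 5 + (8) * sin t ^ 2 + (12) * sin t ^ 2 * cos t ^ 1 + (-24) * sin t ^ 2 * cos t ^ 2 +
      (-32) * sin t ^ 2 * cos t ^ 3) * sin_sq_add_cos_sq t) (by norm_num [F, H]) t

lemma jb1 (t : ℝ) : J (fun _ => ![0, 1, 0]) t 1 =
    F (-18) [279/35, -7, -18, -3, 27, 48/5, -12, -32/7]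
      [-24, -6, 24, 24] [] [] t :=
  ev (fun t => by
    simp [F', H, H', q, sg, g0, V, Fin.sum_univ_three]
    linear_combination ((12) + (72) * cos t ^ 1 + (96) * cos t ^ 2 + (-7) * sin t ^ 1 + (-36) * sin t ^ 1 *
      cos t ^ 1 + (-16) * sin t ^ 1 * cos t ^ 2 + (72) * sin t ^ 1 * cos t ^ 3 + (32) * sin t ^ 1 * cos t ^
      4 + (-4) * sin t ^ 3 + (-24) * sin t ^ 3 * cos t ^ 1 + (-32) * sin t ^ 3 * cos t ^ 2) *
      sin_sq_add_cos_sq t) (by norm_num [F, H]) t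

lemma jb2 (t : ℝ) : J (fun _ => ![0, 1, 0]) t 2 =
    F (-6) [114, -36, -54, -24]
      [-27/5, 15, 99/5, -5, -72/5, -4] [] [] t :=
  ev (fun t => by
    simp [F', H, H', q, sg, g0, V, Fin.sum_univ_three]
    linear_combination ((21) + (45) * cos t ^ 1 + (-24) * cos t ^ 2 + (-72) * cos t ^ 3 + (-24) * cos t ^ 4
      + (12) * sin t ^ 2 + (36) * sin t ^ 2 * cos t ^ 1 + (24) * sin t ^ 2 * cos t ^ 2) * sin_sq_add_cos_sq
      t) (by norm_num [F, H]) t

lemma jc0 (t : ℝ) : J (fun _ => ![0, 0, 1]) t 0 =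
    F (0) [-47/10, 14, -19/2, -10, 7, 16/5]
      [-12, -24] [] [] t :=
  ev (fun t => by
    simp [F', H, H', q, sg, g0, V, Fin.sum_univ_three]
    linear_combination ((8) * sin t ^ 1 + (-4) * sin t ^ 1 * cos t ^ 1 + (-16) * sin t ^ 1 * cos t ^ 2) *
      sin_sq_add_cos_sq t) (by norm_num [F, H]) t

lemma jc1 (t : ℝ) : J (fun _ => ![0, 0, 1]) t 1 =
    F (0) [-36, 12, 24]
      [26/5, -7, -42/5, 7, 16/5] [] [] t :=
  ev (fun t => by
    simp [F', H, H', q, sg, g0, V, Fin.sum_univ_three]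
    linear_combination ((-7) + (-22) * cos t ^ 1 + (28) * cos t ^ 2 + (16) * cos t ^ 3 + (-4) * sin t ^ 2 +
      (-16) * sin t ^ 2 * cos t ^ 1) * sin_sq_add_cos_sq t) (by norm_num [F, H]) t

lemma jc2 (t : ℝ) : J (fun _ => ![0, 0, 1]) t 2 =
    F (36) [-19/2, 21, 3/2, -10, -3]
      [36] [] [] t :=
  ev (fun t => by
    simp [F', H, H', q, sg, g0, V, Fin.sum_univ_three]
    linear_combination ((12) * sin t ^ 1 + (12) * sin t ^ 1 * cos t ^ 1) * sin_sq_add_cos_sq t) (by norm_num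
      [F, H]) t

lemma jj (t : ℝ) : J (J fun _ => ![3, 0, -1]) t 1 =
    F (-875517/1120) [13101/35, -14166/35, -49422/35, 6654/7, 13323/7, -33576/35, -22674/35, 4152/35, 540/7]
      [-59857048/40425, 66167/224, 99140416/40425, 52525/112, -6604331/13475, 16913/100, -592651/8085,
      -19091/350, 25888/1155, 1884/175, 96/77]
      [-216, 864, 1404, -1296, -1296]
      [1854/7, -504, -3294/7, 1152, 3168/7, -648, -1728/7] t :=
  ev (fun t => by
    simp [F', F, H, H', q, sg, g0, V, Fin.sum_univ_three, ja0, ja1, ja2]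
    linear_combination ((12931/10) + (-504) * t ^ 1 + (27608/5) * cos t ^ 1 + (-1206) * cos t ^ 1 * t ^ 1 +
      (49367/70) * cos t ^ 2 + (3960) * cos t ^ 2 * t ^ 1 + (-87508/35) * cos t ^ 3 + (2016) * cos t ^ 3 * t
      ^ 1 + (971) * cos t ^ 4 + (-3888) * cos t ^ 4 * t ^ 1 + (-17131/35) * cos t ^ 5 + (-1728) * cos t ^ 5
      * t ^ 1 + (-2128/5) * cos t ^ 6 + (7104/35) * cos t ^ 7 + (3768/35) * cos t ^ 8 + (96/7) * cos t ^ 9 +
      (-6822/7) * sin t ^ 1 + (-23208/7) * sin t ^ 1 * cos t ^ 1 + (28680/7) * sin t ^ 1 * cos t ^ 2 +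
      (47280/7) * sin t ^ 1 * cos t ^ 3 + (-3216) * sin t ^ 1 * cos t ^ 4 + (-56688/7) * sin t ^ 1 * cos t ^
      5 + (2400/7) * sin t ^ 1 * cos t ^ 6 + (31104/7) * sin t ^ 1 * cos t ^ 7 + (9216/7) * sin t ^ 1 * cos
      t ^ 8 + (47/35) * sin t ^ 2 + (-288) * sin t ^ 2 * t ^ 1 + (68/35) * sin t ^ 2 * cos t ^ 1 + (-936) *
      sin t ^ 2 * cos t ^ 1 * t ^ 1 + (-2607/7) * sin t ^ 2 * cos t ^ 2 + (1296) * sin t ^ 2 * cos t ^ 2 * t
      ^ 1 + (-5584/7) * sin t ^ 2 * cos t ^ 3 + (1728) * sin t ^ 2 * cos t ^ 3 * t ^ 1 + (20432/7) * sin t ^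
      2 * cos t ^ 4 + (20448/35) * sin t ^ 2 * cos t ^ 5 + (-137688/35) * sin t ^ 2 * cos t ^ 6 + (-6672/7)
      * sin t ^ 2 * cos t ^ 7 + (13248/7) * sin t ^ 2 * cos t ^ 8 + (4608/7) * sin t ^ 2 * cos t ^ 9 +
      (-456) * sin t ^ 3 + (-1872) * sin t ^ 3 * cos t ^ 1 + (-48) * sin t ^ 3 * cos t ^ 2 + (576) * sin t ^
      3 * cos t ^ 3 + (412/7) * sin t ^ 4 + (1688/7) * sin t ^ 4 * cos t ^ 1 + (-2140/7) * sin t ^ 4 * cos t
      ^ 2 + (-8872/7) * sin t ^ 4 * cos t ^ 3 + (800) * sin t ^ 4 * cos t ^ 4 + (17552/7) * sin t ^ 4 * cos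
      t ^ 5 + (-800/7) * sin t ^ 4 * cos t ^ 6 + (-10368/7) * sin t ^ 4 * cos t ^ 7 + (-3072/7) * sin t ^ 4
      * cos t ^ 8) * sin_sq_add_cos_sq t) (by norm_num [F, H]) t

lemma alg {Z : ℂ → Matrix (Fin 3) (Fin 3) ℂ} {B : Matrix (Fin 3) (Fin 3) ℂ} {p : ℂ} (hp : p ≠ 0)
    (hB : B 1 0 ≠ 0) (hZ : Tendsto Z (𝓝[≠] 0) (𝓝 B)) {s : Fin 3 → ℂ → ℂ}
    (hs : ∀ i, DifferentiableAt ℂ (s i) 0) (h : ∀ᶠ μ in 𝓝[≠] 0, ∀ t : ℂ, (t • !![3, 0, 0; 0, 1, 0; -1, 0, 1] -
      p • !![-18, -1, 0; 0, -6, 0; 6, -2, 12] - μ • Z μ).det = 3 * ∏ i, (t - s i μ)) : False := by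
  have i0 : Tendsto (fun μ : ℂ => μ) (𝓝[≠] 0) (𝓝 0) := nhdsWithin_le_nhds
  have z := i0.prodMk_nhds hZ
  have l (t : ℂ) : (t • !![3, 0, 0; 0, 1, 0; -1, 0, 1] - p • !![-18, -1, 0; 0, -6, 0; 6, -2, 12] -
      (0 : ℂ) • B).det = 3 * ∏ i, (t - s i 0) := by
    refine tendsto_nhds_unique_of_eventuallyEq (((show Continuous fun x : ℂ × Matrix (Fin 3) (Fin 3) ℂ =>
      (t • !![3, 0, 0; 0, 1, 0; -1, 0, 1] - p • !![-18, -1, 0; 0, -6, 0; 6, -2, 12] - x.1 • x.2).det by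
        fun_prop).tendsto (0, B)).comp z) ?_ (h.mono fun μ h => h t)
    exact (tendsto_finsetProd _ fun i _ => ((hs i).continuousAt.tendsto.comp i0).const_sub t).const_mul 3
  have l0 := l (-6 * p)
  have l1 := l (-6 * p + 1)
  have l2 := l (-6 * p - 1)
  simp only [Matrix.det_fin_three, Fin.prod_univ_three] at l0 l1 l2 h
  simp at l0 l1 l2
  have d := ((((hs 0).hasDerivAt.const_sub (-6 * p)).fun_mul ((hs 1).hasDerivAt.const_sub (-6 * p))).fun_mul
    ((hs 2).hasDerivAt.const_sub (-6 * p))).const_mul 3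
  have e : (-6 * p - s 0 0) * (-6 * p - s 1 0) + (-6 * p - s 0 0) * (-6 * p - s 2 0) +
    (-6 * p - s 1 0) * (-6 * p - s 2 0) = 0 := by grind
  have e3 : (-6 * p - s 0 0) * (-6 * p - s 1 0) * (-6 * p - s 2 0) = 0 := by grind
  have e' : (-6 * p - s 0 0) * (-6 * p - s 1 0) = 0 ∧ (-6 * p - s 0 0) * (-6 * p - s 2 0) = 0 ∧
      (-6 * p - s 1 0) * (-6 * p - s 2 0) = 0 := by
    generalize -6 * p - s 0 0 = a at *
    generalize -6 * p - s 1 0 = b at *
    generalize -6 * p - s 2 0 = c at *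
    rcases mul_eq_zero.1 e3 with q | q
    · rcases mul_eq_zero.1 q with q | q <;> simp_all
    · simp_all
  have := tendsto_nhds_unique_of_eventuallyEq (hasDerivAt_iff_tendsto_slope_zero.1 d)
    (((show Continuous fun x : ℂ × Matrix (Fin 3) (Fin 3) ℂ => (Matrix.of ![![-x.2 0 0, p - x.1 * x.2 0 1,
      -(x.1 * x.2 0 2)], ![-x.2 1 0, -(x.1 * x.2 1 1), -(x.1 * x.2 1 2)], ![-x.2 2 0, 2 * p - x.1 * x.2 2 1,
      -18 * p - x.1 * x.2 2 2]]).det by simp only [Matrix.det_fin_three]; simp; fun_prop).tendsto (0, B)).comp z)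
    (by
      filter_upwards [h, self_mem_nhdsWithin] with μ h (m : μ ≠ 0)
      rw [zero_add, ← h, e3]
      simp [Matrix.det_fin_three]; field_simp; ring)
  simp [Matrix.det_fin_three] at this
  refine mul_ne_zero (mul_ne_zero hp hp) hB ?_
  linear_combination (1 / 18) * this + (1 / 6) * (deriv (s 2) 0 * e'.1 + deriv (s 1) 0 * e'.2.1 +
    deriv (s 0) 0 * e'.2.2)

end

theorem result : ∃ (b : ℝ) (p0 p1 : ℝ → ℝ), 0 < b ∧ Continuous p0 ∧ Continuous p1 ∧
    Periodic p0 b ∧ Periodic p1 b ∧ ∀ u, Fund p0 p1 u → Floq u b 0 = 1 ∧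
      ¬ ∃ r : Fin 3 → ℂ → ℂ, (∀ i, AnalyticAt ℂ (r i) 0) ∧
        ∀ᶠ l in 𝓝 (0 : ℂ), (Floq u b l).charpoly = ∏ i, (X - C (r i l)) := by
  obtain ⟨b, p0, p1, S, h1, h2, h3, h4, h5, hS, HH⟩ := main
  refine ⟨b, p0, p1, h1, h2, h3, h4, h5, fun u hu => ?_⟩
  let y : Fin 3 → Fin 3 → ℝ := ![![3, 0, -1], ![0, 1, 0], ![0, 0, 1]]
  choose K hK using fun k => HH u hu (y k)
  set R : Matrix (Fin 3) (Fin 3) ℂ := !![3, 0, 0; 0, 1, 0; -1, 0, 1] with hR
  set A : Matrix (Fin 3) (Fin 3) ℂ := !![-18, -1, 0; 0, -6, 0; 6, -2, 12] with hA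
  let B : Matrix (Fin 3) (Fin 3) ℂ := Matrix.of fun i k => J (J fun _ => y k) (2 * π) i
  let E (μ : ℂ) := Floq u b μ * S * R - S * (R + μ • (6 * π : ℂ) • A + μ ^ 2 • B)
  have hE (μ) (m : ‖μ‖ ≤ 1) (i k) : ‖E μ i k‖ ≤ K k * ‖μ‖ ^ 3 := by
    refine (congrArg _ ?_).trans_le ((norm_le_pi_norm _ i).trans (hK k μ m))
    have a : (fun i => (y k i : ℂ)) = fun i => R i k := by ext i; fin_cases i <;> fin_cases k <;> simp [y, hR]
    have c : ze (y k) μ (2 * π) = fun i => (R + μ • (6 * π : ℂ) • A + μ ^ 2 • B) i k := by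
      ext i; fin_cases i <;> fin_cases k <;>
        simp [ze, B, y, hR, hA, ja0, ja1, ja2, jb0, jb1, jb2, jc0, jc1, jc2, F, H] <;>
        first | ring1 | (left; ring1) | (right; norm_num)
    rw [a, c, Matrix.mulVec_mulVec]; rfl
  have dR : R.det = 3 := by simp [hR, Matrix.det_fin_three]
  have uS : IsUnit S.det := hS ▸ isUnit_one
  have T0 : Floq u b 0 = 1 := by
    have : E 0 = 0 := by ext i k; simpa using hE 0 (by simp) i k
    refine ((Matrix.isUnit_iff_isUnit_det (S * R)).2 (by simp [hS, dR])).mul_right_cancel ?_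
    simpa [E, sub_eq_zero, mul_assoc] using this
  refine ⟨T0, fun ⟨r, hr, h⟩ => ?_⟩
  have r1 (i) : r i 0 = 1 := by
    have := congrArg (Polynomial.eval (r i 0)) h.self_of_nhds
    rw [T0, eval_prod, Finset.prod_eq_zero (Finset.mem_univ i) (by simp)] at this
    simpa [Matrix.charpoly_one, sub_eq_zero] using this
  refine alg (Z := fun μ => B + S⁻¹ * ((μ ^ 2)⁻¹ • E μ)) (B := B) (p := 6 * π) (by simp)
    (by
      have : J (J fun _ => y 0) (2 * π) 1 < 0 := by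
        simp [y, jj, F, H]; linarith [pi_pos]
      simpa [B] using this.ne) ?_ (s := fun i => dslope (r i) 0)
    (fun i => (hr i).choose_spec.has_fpower_series_dslope_fslope.differentiableAt) ?_
  · have : Tendsto (fun μ : ℂ => (μ ^ 2)⁻¹ • E μ) (𝓝[≠] 0) (𝓝 0) := tendsto_pi_nhds.2 fun i =>
      tendsto_pi_nhds.2 fun k => squeeze_zero_norm' (a := fun μ => K k * ‖μ‖) ?_ ?_
    · exact ((show Continuous fun M : Matrix (Fin 3) (Fin 3) ℂ => B + S⁻¹ * M by fun_prop).tendsto'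
        0 B (by simp)).comp this
    · filter_upwards [self_mem_nhdsWithin, nhdsWithin_le_nhds (Metric.closedBall_mem_nhds (0 : ℂ) one_pos)]
        with μ (m : μ ≠ 0) m1
      have := norm_pos_iff.2 m
      rw [Matrix.smul_apply, norm_smul, norm_inv, norm_pow, inv_mul_le_iff₀ (by positivity)]
      exact (hE μ (by simpa using m1) i k).trans_eq (by ring)
    · simpa using ((continuous_norm.tendsto (0 : ℂ)).mono_left nhdsWithin_le_nhds).const_mul (K k)
  filter_upwards [self_mem_nhdsWithin, nhdsWithin_le_nhds h] with μ (m : μ ≠ 0) h t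
  have e : (Matrix.scalar _ (1 + μ * t) - Floq u b μ) * S * R =
      μ • (S * (t • R - (6 * π : ℂ) • A - μ • (B + S⁻¹ * ((μ ^ 2)⁻¹ • E μ)))) := by
    simp only [mul_sub, mul_add, Matrix.mul_smul, Matrix.mul_nonsing_inv_cancel_left _ _ uS, E, sub_mul,
      Matrix.scalar_apply, ← Matrix.smul_eq_diagonal_mul, Matrix.smul_mul]
    match_scalars <;> field_simp <;> ring
  have e' := congrArg Matrix.det e
  rw [Matrix.det_mul, Matrix.det_mul, Matrix.det_smul, Matrix.det_mul, hS, dR, ← Matrix.eval_charpoly, h,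
    eval_prod, Finset.prod_congr rfl (g := fun i => μ * (t - dslope (r i) 0 μ)) fun i _ => by
      have := sub_smul_dslope (r i) 0 μ
      simp [r1] at this ⊢; linear_combination this, Finset.prod_mul_distrib] at e'
  refine mul_left_cancel₀ (pow_ne_zero 3 m) ?_
  simp only [Finset.prod_const, Finset.card_univ, Fintype.card_fin] at e'
  linear_combination -e'

end Pool.Agent.Results.MP_1bac39_an.Real3
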